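import Mathlib

namespace Pool.Agent.Results.MP_1004d8_al.AffineCycle

/-- A permutation of a group is an affine map if it has the form `x ↦ g * α x` for an
automorphism `α` and an element `g`. -/
def IsAffineMap {G : Type} [Group G] (A : Equiv.Perm G) : Prop :=
  ∃ (g : G) (α : MulAut G), ∀ x, A x = g * α x

/-- The affine group of the line over `ZMod p`: the pair `(u, t)` is the map `x ↦ u x + t`. -/
@[ext] structure Aff (p : ℕ) where
  u : (ZMod p)ˣ
  t : ZMod p

namespace Aff

variable {p : ℕ}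

instance : Mul (Aff p) := ⟨fun x y => ⟨x.u * y.u, x.u * y.t + x.t⟩⟩
instance : One (Aff p) := ⟨⟨1, 0⟩⟩
instance : Inv (Aff p) := ⟨fun x => ⟨x.u⁻¹, -((x.u⁻¹ : (ZMod p)ˣ) * x.t)⟩⟩

theorem mul_u (x y : Aff p) : (x * y).u = x.u * y.u := rfl
theorem mul_t (x y : Aff p) : (x * y).t = x.u * y.t + x.t := rfl
theorem one_u : (1 : Aff p).u = 1 := rfl
theorem one_t : (1 : Aff p).t = 0 := rfl
theorem inv_u (x : Aff p) : (x⁻¹).u = x.u⁻¹ := rfl
theorem inv_t (x : Aff p) : (x⁻¹).t = -((x.u⁻¹ : (ZMod p)ˣ) * x.t) := rfl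

instance : Group (Aff p) := Group.ofLeftAxioms
  (by
    intro x y z
    ext
    · simp [mul_u, mul_assoc]
    · simp only [mul_t, mul_u, Units.val_mul]
      ring)
  (by
    intro x
    ext
    · simp [mul_u, one_u]
    · simp [mul_t, one_t, one_u])
  (by
    intro x
    ext
    · simp [mul_u, one_u, inv_u]
    · simp [mul_t, one_t, inv_u, inv_t])

/-- The underlying product. -/
def equivProd : Aff p ≃ (ZMod p)ˣ × ZMod p where
  toFun x := (x.u, x.t)
  invFun x := ⟨x.1, x.2⟩
  left_inv _ := rfl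
  right_inv _ := rfl

instance [NeZero p] : Finite (Aff p) := Finite.of_equiv _ equivProd.symm

theorem card_aff [hp : Fact p.Prime] : Nat.card (Aff p) = p * (p - 1) := by
  rw [Nat.card_congr equivProd, Nat.card_prod, Nat.card_eq_fintype_card, Nat.card_eq_fintype_card,
    ZMod.card, ZMod.card_units_eq_totient, Nat.totient_prime hp.out, mul_comm]

/-- The homothety with ratio `u`. -/
def hom (u : (ZMod p)ˣ) : Aff p := ⟨u, 0⟩

/-- The translation by `t`. -/
def tr (t : ZMod p) : Aff p := ⟨1, t⟩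

theorem hom_pow (u : (ZMod p)ˣ) (k : ℕ) : (hom u) ^ k = hom (u ^ k) := by
  induction k with
  | zero => rw [pow_zero, pow_zero]; rfl
  | succ k ih =>
    rw [pow_succ, ih, pow_succ]
    ext
    · rfl
    · simp [mul_t, hom]

theorem tr_pow (t : ZMod p) (k : ℕ) : (tr t) ^ k = tr ((k : ZMod p) * t) := by
  induction k with
  | zero =>
    rw [pow_zero]
    ext
    · rfl
    · simp [tr, one_t]
  | succ k ih =>
    rw [pow_succ, ih]
    ext
    · simp [mul_u, tr]
    · simp only [mul_t, tr, Units.val_one, one_mul]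
      push_cast
      ring

/-- The map `x ↦ h x c⁻¹`, where `h` is the homothety with ratio `u` and `c` the translation
by one. -/
def A (u : (ZMod p)ˣ) : Equiv.Perm (Aff p) where
  toFun x := hom u * x * (tr 1)⁻¹
  invFun x := (hom u)⁻¹ * x * tr 1
  left_inv x := by group
  right_inv x := by group

theorem A_pow (u : (ZMod p)ˣ) (k : ℕ) (x : Aff p) :
    ((A u) ^ k) x = (hom u) ^ k * x * ((tr 1) ^ k)⁻¹ := by
  induction k with
  | zero => simp
  | succ k ih =>
    rw [pow_succ', Equiv.Perm.mul_apply, ih]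
    show hom u * (hom u ^ k * x * (tr 1 ^ k)⁻¹) * (tr 1)⁻¹ = _
    rw [pow_succ' (hom u), pow_succ' (tr (1 : ZMod p)), mul_inv_rev]
    simp only [mul_assoc]

theorem A_affine (u : (ZMod p)ˣ) : IsAffineMap (A u) := by
  refine ⟨hom u * (tr 1)⁻¹, MulAut.conj (tr 1), fun x => ?_⟩
  show hom u * x * (tr 1)⁻¹ = hom u * (tr 1)⁻¹ * (tr 1 * x * (tr 1)⁻¹)
  group

theorem A_reach [hp : Fact p.Prime] (u : (ZMod p)ˣ) (hu : ∀ v : (ZMod p)ˣ, v ∈ Subgroup.zpowers u)
    (y : Aff p) : ∃ k : ℕ, ((A u) ^ k) 1 = y := by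
  have hy := hu y.u
  rw [← mem_powers_iff_mem_zpowers, Submonoid.mem_powers_iff] at hy
  obtain ⟨i, hi⟩ := hy
  have hcop : Nat.Coprime (p - 1) p := by
    have := Nat.coprime_self_sub_right (m := 1) (n := p) hp.out.one_lt.le
    have h2 : Nat.Coprime p (p - 1) := this.2 (by simp)
    exact h2.symm
  obtain ⟨k, hk1, hk2⟩ := Nat.chineseRemainder hcop i (-((y.u⁻¹ : (ZMod p)ˣ) * y.t) : ZMod p).val
  refine ⟨k, ?_⟩
  rw [A_pow, hom_pow, tr_pow, mul_one]
  have hcard : Nat.card (ZMod p)ˣ = p - 1 := by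
    rw [Nat.card_eq_fintype_card, ZMod.card_units_eq_totient, Nat.totient_prime hp.out]
  have h1 : u ^ k = y.u := by
    rw [← hi, pow_eq_pow_iff_modEq]
    refine hk1.of_dvd ?_
    rw [← hcard]
    exact orderOf_dvd_natCard u
  have h2 : (k : ZMod p) = -((y.u⁻¹ : (ZMod p)ˣ) * y.t) := by
    have := (ZMod.natCast_eq_natCast_iff _ _ _).2 hk2
    rwa [ZMod.natCast_zmod_val] at this
  rw [h1]
  ext
  · simp [mul_u, hom, tr, inv_u]
  · rw [mul_t]
    simp only [hom, tr, inv_t, inv_one, Units.val_one, mul_one, one_mul, add_zero]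
    have h5 : (y.u : ZMod p) * ((y.u⁻¹ : (ZMod p)ˣ) : ZMod p) = 1 := Units.mul_inv _
    rw [h2]
    linear_combination y.t * h5

theorem A_trans [hp : Fact p.Prime] (u : (ZMod p)ˣ) (hu : ∀ v : (ZMod p)ˣ, v ∈ Subgroup.zpowers u)
    (x y : Aff p) : ∃ k : ℕ, ((A u) ^ k) x = y := by
  obtain ⟨i, hi⟩ := A_reach u hu x
  obtain ⟨j, hj⟩ := A_reach u hu y
  have h0 : 0 < orderOf (A u) := orderOf_pos _
  refine ⟨j + (orderOf (A u) * i - i), ?_⟩
  rw [← hi, ← Equiv.Perm.mul_apply, ← pow_add]
  have h1 : j + (orderOf (A u) * i - i) + i = j + orderOf (A u) * i := by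
    have : i ≤ orderOf (A u) * i := Nat.le_mul_of_pos_left i h0
    omega
  rw [h1, pow_add, pow_mul, pow_orderOf_eq_one, one_pow, mul_one, hj]

theorem orderOf_A [hp : Fact p.Prime] (u : (ZMod p)ˣ)
    (hu : ∀ v : (ZMod p)ˣ, v ∈ Subgroup.zpowers u) : orderOf (A u) = Nat.card (Aff p) := by
  apply le_antisymm
  · apply Nat.le_of_dvd Nat.card_pos
    apply orderOf_dvd_of_pow_eq_one
    ext1 x
    rw [A_pow]
    have h1 : ∀ g : Aff p, g ^ Nat.card (Aff p) = 1 := fun g => pow_card_eq_one'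
    rw [h1, h1]
    simp
  · have hs : Function.Surjective (fun k : Fin (orderOf (A u)) => ((A u) ^ (k : ℕ)) 1) := by
      intro y
      obtain ⟨k, hk⟩ := A_reach u hu y
      refine ⟨⟨k % orderOf (A u), Nat.mod_lt _ (orderOf_pos _)⟩, ?_⟩
      show ((A u) ^ (k % orderOf (A u))) 1 = y
      rw [pow_mod_orderOf, hk]
    have h2 := Nat.card_le_card_of_surjective _ hs
    rwa [Nat.card_eq_fintype_card (α := Fin _), Fintype.card_fin] at h2

open scoped Classical in
/-- The injection used to bound the number of commuting pairs. -/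
noncomputable def code : {z : Aff p × Aff p // Commute z.1 z.2} → (Aff p × ZMod p) ⊕ Aff p :=
  fun z => if z.1.1 = 1 then Sum.inr z.1.2 else
    Sum.inl (z.1.1, if z.1.1.u = 1 then z.1.2.t else (z.1.2.u : ZMod p))

theorem code_injective [hp : Fact p.Prime] : Function.Injective (code (p := p)) := by
  classical
  rintro ⟨⟨x, y⟩, hxy⟩ ⟨⟨x', y'⟩, hxy'⟩ h
  have key : ∀ x y : Aff p, Commute x y → (x.u : ZMod p) * y.t + x.t = y.u * x.t + y.t := by
    intro x y hc
    exact congrArg Aff.t hc.eq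
  unfold code at h
  by_cases hx : x = 1
  · by_cases hx' : x' = 1
    · simp only [hx, hx', if_true] at h
      have h1 : y = y' := Sum.inr_injective h
      subst hx hx' h1
      rfl
    · simp [hx, hx'] at h
  · by_cases hx' : x' = 1
    · simp [hx, hx'] at h
    · simp only [hx, hx', if_false] at h
      have h1 := Prod.ext_iff.1 (Sum.inl_injective h)
      simp only at h1
      obtain ⟨h1, h2⟩ := h1
      subst h1
      have k1 := key x y hxy
      have k2 := key x y' hxy'
      by_cases hu : x.u = 1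
      · simp only [hu, if_true] at h2
        have ht : x.t ≠ 0 := by
          intro ht
          exact hx (Aff.ext hu ht)
        rw [hu, Units.val_one, one_mul, add_comm, add_left_inj] at k1 k2
        have h3 : (y.u : ZMod p) = y'.u := by
          apply mul_right_cancel₀ ht
          rw [← k1, ← k2]
        have h4 : y = y' := Aff.ext (Units.ext h3) h2
        subst h4
        rfl
      · simp only [hu, if_false] at h2
        have hu' : (x.u : ZMod p) - 1 ≠ 0 := by
          intro h0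
          apply hu
          apply Units.ext
          rw [Units.val_one]
          exact sub_eq_zero.1 h0
        have h3 : ((x.u : ZMod p) - 1) * y.t = ((x.u : ZMod p) - 1) * y'.t := by
          have e1 : ((x.u : ZMod p) - 1) * y.t = (y.u - 1) * x.t := by linear_combination k1
          have e2 : ((x.u : ZMod p) - 1) * y'.t = (y'.u - 1) * x.t := by linear_combination k2
          rw [e1, e2, h2]
        have h4 : y = y' := Aff.ext (Units.ext h2) (mul_left_cancel₀ hu' h3)
        subst h4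
        rfl

theorem commProb_lt [hp : Fact p.Prime] (hp3 : 3 ≤ p) : (commProb (Aff p) : ℝ) ≤ 2 / p := by
  have h1 : Nat.card {z : Aff p × Aff p // Commute z.1 z.2} ≤ Nat.card (Aff p) * (p + 1) := by
    have h2 := Nat.card_le_card_of_injective _ (code_injective (p := p))
    rw [Nat.card_sum, Nat.card_prod, Nat.card_eq_fintype_card (α := ZMod p), ZMod.card] at h2
    calc _ ≤ _ := h2
      _ = _ := by ring
  rw [commProb_def]
  push_cast
  have hpos : (0 : ℝ) < Nat.card (Aff p) := by exact_mod_cast Nat.card_pos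
  have hcard : (Nat.card (Aff p) : ℝ) = p * (p - 1) := by
    rw [card_aff, Nat.cast_mul, Nat.cast_sub hp.out.one_lt.le, Nat.cast_one]
  have hpr : (3 : ℝ) ≤ p := by exact_mod_cast hp3
  rw [div_le_div_iff₀ (by positivity) (by linarith)]
  have h3 : (Nat.card {z : Aff p × Aff p // Commute z.1 z.2} : ℝ) ≤
      Nat.card (Aff p) * (p + 1) := by exact_mod_cast h1
  calc (Nat.card {z : Aff p × Aff p // Commute z.1 z.2} : ℝ) * p
      ≤ (Nat.card (Aff p) * (p + 1)) * p := by
        apply mul_le_mul_of_nonneg_right h3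
        linarith
    _ ≤ 2 * (Nat.card (Aff p) : ℝ) ^ 2 := by
        have : ((p : ℝ) + 1) * p ≤ 2 * Nat.card (Aff p) := by
          rw [hcard]
          nlinarith
        calc (Nat.card (Aff p) * ((p : ℝ) + 1)) * p = Nat.card (Aff p) * (((p : ℝ) + 1) * p) := by
              ring
          _ ≤ Nat.card (Aff p) * (2 * Nat.card (Aff p)) :=
              mul_le_mul_of_nonneg_left this hpos.le
          _ = 2 * (Nat.card (Aff p) : ℝ) ^ 2 := by ring

end Aff

theorem main (ε : ℝ) (hε : 0 < ε) :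
    ∃ (G : Type) (_ : Group G) (_ : Finite G) (A : Equiv.Perm G),
      IsAffineMap A ∧ (∀ x y : G, ∃ k : ℕ, (A ^ k) x = y) ∧ orderOf A = Nat.card G ∧
      (commProb G : ℝ) < ε := by
  obtain ⟨N, hN⟩ := exists_nat_gt (2 / ε)
  obtain ⟨p, hpN, hp⟩ := Nat.exists_infinite_primes (max N 3)
  have : Fact p.Prime := ⟨hp⟩
  obtain ⟨u, hu⟩ := IsCyclic.exists_generator (α := (ZMod p)ˣ)
  refine ⟨Aff p, inferInstance, inferInstance, Aff.A u, Aff.A_affine u, Aff.A_trans u hu,
    Aff.orderOf_A u hu, ?_⟩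
  have h3 : 3 ≤ p := le_trans (le_max_right _ _) hpN
  have hN' : N ≤ p := le_trans (le_max_left _ _) hpN
  refine lt_of_le_of_lt (Aff.commProb_lt h3) ?_
  have hp0 : (0 : ℝ) < p := by exact_mod_cast hp.pos
  have h4 : 2 / ε < p := lt_of_lt_of_le hN (by exact_mod_cast hN')
  rw [div_lt_iff₀ hp0]
  rw [div_lt_iff₀ hε] at h4
  linarith

/-- For every `ε > 0` there is a finite group with an affine map that permutes all elements of the
group in a single cycle (so its order is the order of the group) and with commuting probability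
less than `ε`. Hence there is no function `f` as in Q1. -/
theorem result :
    (∀ ε : ℝ, 0 < ε → ∃ (G : Type) (_ : Group G) (_ : Finite G) (A : Equiv.Perm G),
      IsAffineMap A ∧ (∀ x y : G, ∃ k : ℕ, (A ^ k) x = y) ∧ orderOf A = Nat.card G ∧
      (commProb G : ℝ) < ε) ∧
    ¬ ∃ f : ℝ → ℝ, (∀ ρ, 0 < ρ → ρ ≤ 1 → 0 < f ρ ∧ f ρ ≤ 1) ∧
      ∀ ρ, 0 < ρ → ρ ≤ 1 → ∀ (G : Type) [Group G] [Finite G] (A : Equiv.Perm G),
        IsAffineMap A → ρ * (Nat.card G : ℝ) ≤ orderOf A → f ρ ≤ (commProb G : ℝ) := by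
  refine ⟨main, ?_⟩
  rintro ⟨f, hf, h⟩
  obtain ⟨G, hG, hfin, A, hA, -, hord, hcp⟩ := main (f 1) (hf 1 one_pos le_rfl).1
  have h1 := h 1 one_pos le_rfl G A hA (by rw [one_mul, hord])
  linarith

end Pool.Agent.Results.MP_1004d8_al.AffineCycle
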